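import Pool.Agent.Helper3.FewP.Goals3

/-!
# FewPoints (MP_d3128a_ag), block STRIP, packet GRO: strict growth of the generic rank
-/

set_option autoImplicit false

namespace Pool.Agent.Helper30.FewP.GRO

open Pool.Agent.Helper3.FewP

theorem mem_VV (k m : ℕ) (χ t z : ℂ) {N : ℕ} (j r : ℕ) (hj : j < N) (hr : r < k) :
    vv k m χ t z j r ∈ VV k m χ t z N :=
  Submodule.subset_span ⟨(⟨j, hj⟩, ⟨r, hr⟩), rfl⟩

theorem VV_mono (k m : ℕ) (χ t z : ℂ) {N N' : ℕ} (h : N ≤ N') :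
    VV k m χ t z N ≤ VV k m χ t z N' := by
  unfold VV
  rw [Submodule.span_le]
  rintro _ ⟨⟨j, r⟩, rfl⟩
  exact mem_VV k m χ t z _ _ (lt_of_lt_of_le j.2 h) r.2

theorem VV_succ (k m : ℕ) (U : (Mon m → EE) →ₗ[EE] (Mon m → EE))
    (hU : ∀ (χ t τ z : ℂ) (j r : ℕ), τ ≠ 0 → τ ^ k = t →
      U (vv k m χ t (τ * z) j r) = (HahnSeries.C (τ ^ r) : EE) • vv k m χ t z (j + 1) r)
    (χ t τ z : ℂ) (hτ : τ ≠ 0) (hk : τ ^ k = t) (M : ℕ) :
    VV k m χ t z (M + 1) = VV k m χ t z 1 ⊔ (VV k m χ t (τ * z) M).map U := by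
  apply le_antisymm
  · conv_lhs => unfold VV
    rw [Submodule.span_le]
    rintro _ ⟨⟨⟨j, hj⟩, r⟩, rfl⟩
    rcases j with _ | j
    · exact Submodule.mem_sup_left (mem_VV k m χ t z 0 r zero_lt_one r.2)
    · apply Submodule.mem_sup_right
      have h1 := hU χ t τ z j r hτ hk
      have hc : (HahnSeries.C (τ ^ (r : ℕ)) : EE) ≠ 0 := by
        rw [Ne, map_eq_zero]
        exact pow_ne_zero _ hτ
      have h2 : vv k m χ t z (j + 1) r =
          U ((HahnSeries.C (τ ^ (r : ℕ)) : EE)⁻¹ • vv k m χ t (τ * z) j r) := by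
        rw [map_smul, h1, smul_smul, inv_mul_cancel₀ hc, one_smul]
      show vv k m χ t z (j + 1) r ∈ _
      rw [h2]
      exact Submodule.mem_map_of_mem (Submodule.smul_mem _ _
        (mem_VV k m χ t (τ * z) j r (by omega) r.2))
  · refine sup_le (VV_mono k m χ t z (by omega)) ?_
    conv_lhs => unfold VV
    rw [Submodule.map_span, Submodule.span_le]
    rintro _ ⟨_, ⟨⟨j, r⟩, rfl⟩, rfl⟩
    show U (vv k m χ t (τ * z) j r) ∈ _
    rw [hU χ t τ z j r hτ hk]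
    exact Submodule.smul_mem _ _ (mem_VV k m χ t z _ _ (by omega) r.2)

theorem t : G_GRK → G_LEN → G_TRA → G_TSP → G_GRO := by
  intro hGRK hLEN hTRA hTSP k m χ t hk hχ ht hroot
  have hB : ∀ N : ℕ, ∃ (n : ℕ) (B : Set ℂ), B.Finite ∧ (0 : ℂ) ∈ B ∧ ∀ z, z ∉ B →
      Module.finrank EE (VV k m χ t z N) = n := by
    intro N
    obtain ⟨A, hA⟩ := hLEN k m N χ t
    obtain ⟨B, n, hB, hn⟩ := hGRK (Fin N × Fin k) (Mon m) A
    refine ⟨n, insert 0 B, hB.insert 0, Set.mem_insert _ _, fun z hz => ?_⟩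
    rw [Set.mem_insert_iff, not_or] at hz
    have := hn (Units.mk0 z hz.1) hz.2
    have e : (fun (c : Fin N × Fin k) (y : Mon m) =>
        HahnSeries.ofPowerSeries ℤ ℂ
          (PowerSeries.map (evz (Units.mk0 z hz.1) : AddMonoidAlgebra ℂ ℤ →+* ℂ) (A c y))) =
            fun c => vv k m χ t z c.1 c.2 := by
      funext c y
      rw [hA]
      rfl
    rw [e] at this
    exact this
  choose rk B hBf hB0 hrk using hB
  refine ⟨rk, fun N => ⟨B N, hBf N, hrk N⟩, ?_⟩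
  intro N hN
  obtain ⟨U, hU⟩ := hTRA k m
  obtain ⟨τ, hτk⟩ := IsAlgClosed.exists_pow_nat_eq t (by omega : 0 < k)
  have hτ : τ ≠ 0 := by
    rintro rfl
    rw [zero_pow (by omega)] at hτk
    exact ht hτk.symm
  -- a good point
  obtain ⟨z, hz⟩ : ∃ z : ℂ, ∀ i : ℕ, τ ^ i * z ∉ B N ∪ B (N + 1) := by
    by_contra hcon
    push Not at hcon
    apply not_countable_complex
    have : (Set.univ : Set ℂ) ⊆ ⋃ i : ℕ, (fun z : ℂ => τ ^ i * z) ⁻¹' (B N ∪ B (N + 1)) := by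
      intro z _
      obtain ⟨i, hi⟩ := hcon z
      exact Set.mem_iUnion.2 ⟨i, hi⟩
    refine Set.Countable.mono this (Set.countable_iUnion fun i => ?_)
    apply Set.Finite.countable
    exact ((hBf N).union (hBf (N + 1))).preimage
      (mul_right_injective₀ (pow_ne_zero i hτ)).injOn
  have hz0 : z ≠ 0 := by
    rintro rfl
    apply hz 0
    rw [mul_zero]
    exact Or.inl (hB0 N)
  have base : ∀ l : ℕ, VV k m χ t (τ ^ l * z) (N + 1) = VV k m χ t (τ ^ l * z) N := by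
    intro l
    symm
    apply Submodule.eq_of_le_of_finrank_eq (VV_mono k m χ t _ (Nat.le_succ N))
    rw [hrk N _ fun h => hz l (Or.inl h), hrk (N + 1) _ fun h => hz l (Or.inr h), hN]
  have step : ∀ i l : ℕ, VV k m χ t (τ ^ l * z) (N + i) = VV k m χ t (τ ^ l * z) N := by
    intro i
    induction i with
    | zero => intro l; rfl
    | succ i ih =>
      intro l
      have h1 : τ * (τ ^ l * z) = τ ^ (l + 1) * z := by rw [pow_succ]; ring
      rw [← add_assoc, VV_succ k m U hU χ t τ _ hτ hτk, h1, ih (l + 1), ← h1,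
        ← VV_succ k m U hU χ t τ _ hτ hτk, base]
  obtain ⟨N', hN'⟩ := hTSP k m χ t z hk hχ hz0 ht hroot
  have h1 : VV k m χ t (τ ^ 0 * z) N = ⊤ := by
    rw [← step N' 0, pow_zero, one_mul, eq_top_iff, ← hN']
    exact VV_mono k m χ t z (Nat.le_add_left _ _)
  have h2 := hrk N (τ ^ 0 * z) fun h => hz 0 (Or.inl h)
  rw [h1, finrank_top, Module.finrank_fintype_fun_eq_card] at h2
  exact h2.symm

end Pool.Agent.Helper30.FewP.GRO
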